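import Mathlib
import Pool.Agent.Lib.MP_40a019_an.Assembly3
import Pool.Agent.Lib.MP_40a019_an.I3.Core3

/-!
Products of involutions among one-variable holomorphic germs: determination of `I^n` for all
`n ≥ 3`, and `I^∞ = I^4`.
-/

set_option autoImplicit false

namespace Pool.Agent.Results.MP_40a019_an.Involutions

open Pool.Agent.Lib.MP_40a019_an

/-- `I^3 = I^2 ∪ {f'(0) = -1, S_f(0) = 0}`, `I^n = {f'(0) = ±1, S_f(0) = 0}` for `n ≥ 4`; hence
`I^∞ = I^4`, and `I^3 ≠ I^4`. -/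
theorem result :
    (∀ f : ℂ → ℂ, ProdInv 3 f ↔ ProdInv 2 f ∨ (IsGerm f ∧ deriv f 0 = -1 ∧
      2 * deriv f 0 * iteratedDeriv 3 f 0 = 3 * iteratedDeriv 2 f 0 ^ 2)) ∧
    (∀ (f : ℂ → ℂ) (n : ℕ), 4 ≤ n → (ProdInv n f ↔
      IsGerm f ∧ (deriv f 0 = 1 ∨ deriv f 0 = -1) ∧
        2 * deriv f 0 * iteratedDeriv 3 f 0 = 3 * iteratedDeriv 2 f 0 ^ 2)) ∧
    (∀ f : ℂ → ℂ, (∃ n, ProdInv n f) → ProdInv 4 f) ∧
    ∃ f : ℂ → ℂ, ProdInv 4 f ∧ ¬ ProdInv 3 f := by
  have core : Core3 := I3.core3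
  refine ⟨fun f => (main3 core f).1, fun f n hn => (main3 core f).2 n hn, ?_, ?_⟩
  · rintro f ⟨n, hn⟩
    exact ((main3 core f).2 4 le_rfl).mpr ⟨hn.isGerm, hn.jet.1, hn.isGerm.jet_iff.mp hn.jet.2⟩
  · refine ⟨fun z => z + z ^ 5, ?_, sharp⟩
    have hder : ∀ z : ℂ, HasDerivAt (fun z : ℂ => z + z ^ 5) (1 + 5 * z ^ 4) z := by
      intro z
      have := (hasDerivAt_id' z).fun_add (hasDerivAt_pow 5 z)
      simpa using this
    have hd1 : deriv (fun z : ℂ => z + z ^ 5) = fun z => 1 + 5 * z ^ 4 :=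
      funext fun z => (hder z).deriv
    have hd2 : deriv (fun z : ℂ => 1 + 5 * z ^ 4) = fun z => 20 * z ^ 3 := by
      funext z
      have := ((hasDerivAt_pow 4 z).const_mul (5 : ℂ)).const_add 1
      rw [this.deriv]
      push_cast
      ring
    have hd3 : deriv (fun z : ℂ => 20 * z ^ 3) = fun z => 60 * z ^ 2 := by
      funext z
      have := (hasDerivAt_pow 3 z).const_mul (20 : ℂ)
      rw [this.deriv]
      push_cast
      ring
    have i2 : iteratedDeriv 2 (fun z : ℂ => z + z ^ 5) 0 = 0 := by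
      rw [iteratedDeriv_succ, iteratedDeriv_one, hd1, hd2]
      norm_num
    have i3 : iteratedDeriv 3 (fun z : ℂ => z + z ^ 5) 0 = 0 := by
      rw [iteratedDeriv_succ, iteratedDeriv_succ, iteratedDeriv_one, hd1, hd2, hd3]
      norm_num
    have i1 : deriv (fun z : ℂ => z + z ^ 5) 0 = 1 := by rw [hd1]; norm_num
    refine ((main3 core _).2 4 le_rfl).mpr ⟨⟨?_, by norm_num, ?_⟩, Or.inl i1, ?_⟩
    · fun_prop
    · rw [i1]; norm_num
    · rw [i2, i3]; norm_num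

end Pool.Agent.Results.MP_40a019_an.Involutions
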